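import Pool.Agent.H45.CH.Lift
import Pool.Agent.H45.CH.Main
import Pool.Agent.H45.CH.VE

/-!
# CHL Cmp

Comparison of the fields `M_r^s` in characteristic zero and in characteristic `p`.
-/

set_option autoImplicit false
set_option linter.style.haveILetI false

namespace Pool.Agent.H15.CHL

open IntermediateField Pool.Agent.H45.CH Pool.Agent.H2.HER

universe u v w

section

variable {k E κ K : Type*} [Field k] [Field E] [Field κ] [Field K] [Algebra k κ]
    [Algebra E K] {O : ValuationSubring K} {ρ : O →+* κ} {n : ℕ} {x : Fin n → O}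

theorem res_M_le [IsAlgClosed k] [IsAlgClosed E] [IsAlgClosed κ] [IsAlgClosed K] [CharZero E]
    (p : ℕ) [Fact p.Prime] [CharP κ p] (h : Red k E O ρ x) {r s : ℕ} (hr : 1 ≤ r) (hs : 1 ≤ s) :
    resF h (ALG.M E (fun i => (x i : K)) r s) ≤ ALG.M k (fun i => ρ (x i)) r (2 * s - 1) := by
  rintro _ ⟨w, hw, rfl⟩
  exact (main_step p h hr s hs).1 w hw

/-- the field of residues of `M_r(n; E) ∩ O` is `M_r(n; k)` -/
theorem res_MU [IsAlgClosed k] [IsAlgClosed E] [IsAlgClosed κ] [IsAlgClosed K] [CharZero E]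
    (p : ℕ) [Fact p.Prime] [CharP κ p] (h : Red k E O ρ x) {r : ℕ} (hr : 1 ≤ r) :
    resF h (MU E (fun i => (x i : K)) r) = MU k (fun i => ρ (x i)) r := by
  apply le_antisymm
  · rintro _ ⟨w, hw, rfl⟩
    obtain ⟨s, hs⟩ := (mem_MU hr).1 hw
    exact M_le_MU _ r _ ((main_step p h hr (s + 1) (Nat.le_add_left 1 s)).1 w hs)
  · intro z hz
    obtain ⟨s, hs⟩ := (mem_MU hr).1 hz
    exact resF_mono h (M_le_MU _ r _) (M_le_resF h r (s + 1) hs)

theorem incl_res [IsAlgClosed k] [IsAlgClosed E] [IsAlgClosed κ] [IsAlgClosed K] [CharZero E]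
    (p : ℕ) [Fact p.Prime] [CharP κ p] (h : Red k E O ρ x) {r s r' s' : ℕ} (hr' : 1 ≤ r')
    (hs' : 1 ≤ s')
    (hle : ALG.M E (fun i => (x i : K)) r s ≤ ALG.M E (fun i => (x i : K)) r' s') :
    ALG.M k (fun i => ρ (x i)) r s ≤ ALG.M k (fun i => ρ (x i)) r' (2 * s' - 1) :=
  (M_le_resF h r s).trans ((resF_mono h hle).trans (res_M_le p h hr' hs'))

end

/-- an inclusion among the `M_r^s` in characteristic zero gives one in characteristic `p` -/
theorem incl_compare (p : ℕ) (hp : p.Prime) {C : Type*} [Field C] [IsAlgClosed C] [CharP C 0]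
    {K : Type*} [Field K] [IsAlgClosed K] [Algebra C K] {k : Type u} [Field k] [IsAlgClosed k]
    [CharP k p] {K' : Type*} [Field K'] [IsAlgClosed K'] [Algebra k K'] {n m : ℕ} (hmn : m ≤ n)
    (x : Fin n → K) (hx : IsTranscendenceBasis C x) (x' : Fin m → K')
    (hx' : IsTranscendenceBasis k x')
    (hB : ∃ B : ℕ → C, AlgebraicIndependent (⊥ : Subfield C) B) {r s r' s' : ℕ} (hr' : 1 ≤ r')
    (hs' : 1 ≤ s') (hle : ALG.M C x r s ≤ ALG.M C x r' s') :
    ALG.M k x' r s ≤ ALG.M k x' r' (2 * s' - 1) := by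
  haveI := Fact.mk hp
  obtain ⟨κ, E, K₁, _, _, _, _, _, _, _, _, _, O, ρ, y, h⟩ := exists_red p k m
  haveI : CharP E 0 := CharP.ofCharZero E
  haveI : CharP κ p := charP_of_injective_algebraMap (algebraMap k κ).injective p
  have h1 := (q2 0 hmn x hx (fun i => (y i : K₁)) h.tb (Or.inl hB)).1 r s r' s' hle
  have h2 := incl_res p h hr' hs' h1
  rw [M_le_iff h.tb'.1] at h2
  rwa [M_le_iff hx'.1]

/-- if there are finitely many `M_r^s` in characteristic zero, so there are in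
characteristic `p` -/
theorem finite_compare (p : ℕ) (hp : p.Prime) {C : Type*} [Field C] [IsAlgClosed C] [CharP C 0]
    {K : Type*} [Field K] [IsAlgClosed K] [Algebra C K] {k : Type u} [Field k] [IsAlgClosed k]
    [CharP k p] {K' : Type*} [Field K'] [IsAlgClosed K'] [Algebra k K'] {n m : ℕ} (hmn : m ≤ n)
    (x : Fin n → K) (hx : IsTranscendenceBasis C x) (x' : Fin m → K')
    (hx' : IsTranscendenceBasis k x')
    (hB : ∃ B : ℕ → C, AlgebraicIndependent (⊥ : Subfield C) B)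
    (hfin : {F | ∃ r s, 1 ≤ r ∧ r ≤ n ∧ 1 ≤ s ∧ F = ALG.M C x r s}.Finite) :
    {F | ∃ r s, 1 ≤ r ∧ r ≤ m ∧ 1 ≤ s ∧ F = ALG.M k x' r s}.Finite := by
  have hst : ∀ r, 1 ≤ r → r ≤ n → ∃ N, 1 ≤ N ∧ ∀ j, ALG.M C x r j ≤ ALG.M C x r N := by
    intro r hr hrn
    have hS : (Set.range (fun s => ALG.M C x r (s + 1))).Finite := hfin.subset (by
      rintro _ ⟨s, rfl⟩
      exact ⟨r, s + 1, hr, hrn, Nat.le_add_left 1 s, rfl⟩)
    obtain ⟨F, ⟨N, rfl⟩, hmax⟩ := hS.exists_maximal ⟨_, 0, rfl⟩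
    refine ⟨N + 1, Nat.le_add_left 1 N, fun j => ?_⟩
    have h1 : ALG.M C x r (max j N + 1) ≤ ALG.M C x r (N + 1) :=
      hmax ⟨max j N, rfl⟩ (M_mono x hr (by omega))
    exact (M_mono x hr (show j ≤ max j N + 1 by omega)).trans h1
  choose! N hN1 hN using hst
  refine ((Set.finite_Icc 1 m).biUnion (t := fun r => (fun j => ALG.M k x' r j) ''
    Set.Iic (2 * N r - 1)) (fun r _ => (Set.finite_Iic _).image _)).subset ?_
  rintro _ ⟨r, j, hr, hrm, hj, rfl⟩
  rw [Set.mem_iUnion₂]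
  refine ⟨r, ⟨hr, hrm⟩, ?_⟩
  by_cases hjN : j ≤ 2 * N r - 1
  · exact ⟨j, hjN, rfl⟩
  · refine ⟨2 * N r - 1, Set.mem_Iic.2 le_rfl, le_antisymm (M_mono x' hr (by omega)) ?_⟩
    exact incl_compare p hp hmn x hx x' hx' hB hr (hN1 r hr (hrm.trans hmn))
      (hN r hr (hrm.trans hmn) j)

end Pool.Agent.H15.CHL
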