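import Mathlib

/-!
# CHL ResP

Lagrange resolvents, any characteristic.
-/

set_option autoImplicit false

namespace Pool.Agent.H15.CHL

open IntermediateField

/-- Lagrange resolvents: if `g` has order dividing a prime `ℓ` on `w` and moves `w`, and `E` contains
the `ℓ`-th roots of unity, there is `y ≠ 0` in the span of the `g ^ i w` with `g y = ζ y`, `ζ ∈ E`,
`ζ ≠ 1`, `ζ ^ ℓ = 1` -/
theorem exists_resolvent_p {E K : Type*} [Field E] [Field K] [Algebra E K] [IsAlgClosed E]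
    (L : IntermediateField E K) (g : K ≃ₐ[E] K)
    (ℓ : ℕ) (hℓ : ℓ.Prime) (hℓE : (ℓ : E) ≠ 0) (w : K) (hw : ∀ i : ℕ, (g ^ i) w ∈ L) (hgw : (g ^ ℓ) w = w)
    (hne : g w ≠ w) : ∃ y ∈ L, y ≠ 0 ∧ ∃ ζ : E, ζ ≠ 1 ∧ ζ ^ ℓ = 1 ∧ g y = algebraMap E K ζ * y := by
  have hℓK : (ℓ : K) ≠ 0 := by
    rw [← map_natCast (algebraMap E K), Ne, map_eq_zero]
    exact hℓE
  haveI : NeZero (ℓ : E) := ⟨hℓE⟩
  haveI : NeZero ℓ := ⟨hℓ.ne_zero⟩
  obtain ⟨ζ, hζ⟩ := HasEnoughRootsOfUnity.exists_primitiveRoot E ℓ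
  set f : ℕ → ℕ → K := fun j i => algebraMap E K (ζ ^ (i * j)) * (g ^ i) w with hf
  set y : ℕ → K := fun j => ∑ i ∈ Finset.range ℓ, f j i with hy
  have hyg : ∀ j, g (y j) * algebraMap E K (ζ ^ j) = y j := by
    intro j
    have h1 : g (y j) * algebraMap E K (ζ ^ j) = ∑ i ∈ Finset.range ℓ, f j (i + 1) := by
      rw [hy, map_sum, Finset.sum_mul]
      refine Finset.sum_congr rfl (fun i _ => ?_)
      simp only [hf]
      rw [map_mul, AlgEquiv.commutes, pow_succ' g i, AlgEquiv.mul_apply, add_mul, one_mul, pow_add,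
        map_mul]
      ring
    have h2 : f j ℓ = f j 0 := by
      simp only [hf]
      rw [hgw, pow_mul, hζ.pow_eq_one, one_pow, zero_mul, pow_zero, pow_zero]
      rfl
    have h3 := Finset.sum_range_succ' (f j) ℓ
    rw [Finset.sum_range_succ, h2] at h3
    rw [h1]
    exact (add_right_cancel h3).symm
  have hsum : ∑ j ∈ Finset.range ℓ, y j = (ℓ : K) * w := by
    rw [hy, Finset.sum_comm]
    have h1 : ∀ i ∈ Finset.range ℓ, i ≠ 0 → ∑ j ∈ Finset.range ℓ, f j i = 0 := by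
      intro i hi hi0
      simp only [hf]
      rw [← Finset.sum_mul, ← map_sum]
      have h2 : IsPrimitiveRoot (ζ ^ i) ℓ := by
        refine hζ.pow_of_coprime i ?_
        refine Nat.Coprime.symm ((Nat.Prime.coprime_iff_not_dvd hℓ).2 (fun hd => ?_))
        exact absurd (Nat.le_of_dvd (Nat.pos_of_ne_zero hi0) hd)
          (not_le.2 (Finset.mem_range.1 hi))
      have h3 := h2.geom_sum_eq_zero hℓ.one_lt
      simp only [pow_mul]
      rw [h3, map_zero, zero_mul]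
    rw [Finset.sum_eq_single_of_mem 0 (Finset.mem_range.2 hℓ.pos) h1]
    simp only [hf, zero_mul, pow_zero, map_one, one_mul]
    rw [Finset.sum_const, Finset.card_range, nsmul_eq_mul]
    rfl
  have hex : ∃ j ∈ Finset.range ℓ, j ≠ 0 ∧ y j ≠ 0 := by
    by_contra hcon
    push Not at hcon
    rw [Finset.sum_eq_single_of_mem 0 (Finset.mem_range.2 hℓ.pos) hcon] at hsum
    have h1 := hyg 0
    rw [hsum, pow_zero, map_one, mul_one, map_mul, map_natCast] at h1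
    exact hne (mul_left_cancel₀ hℓK h1)
  obtain ⟨j, hj, hj0, hyj⟩ := hex
  have hζj : ζ ^ j ≠ 1 := fun h => absurd (Nat.le_of_dvd (Nat.pos_of_ne_zero hj0)
    ((hζ.pow_eq_one_iff_dvd j).1 h)) (not_le.2 (Finset.mem_range.1 hj))
  have hζ0 : ζ ^ j ≠ 0 := pow_ne_zero _ (hζ.ne_zero hℓ.ne_zero)
  refine ⟨y j, ?_, hyj, (ζ ^ j)⁻¹, fun h => hζj (inv_eq_one.1 h), ?_, ?_⟩
  · exact sum_mem (fun i _ => mul_mem (L.algebraMap_mem _) (hw i))
  · rw [inv_pow, ← pow_mul, mul_comm, pow_mul, hζ.pow_eq_one, one_pow, inv_one]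
  · have h1 := hyg j
    have h2 : algebraMap E K (ζ ^ j) ≠ 0 := by
      rw [Ne, map_eq_zero]; exact hζ0
    rw [map_inv₀, eq_inv_mul_iff_mul_eq₀ h2, mul_comm]
    exact h1

end Pool.Agent.H15.CHL
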