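import Pool.Agent.H15.CHL.SurjP
import Pool.Agent.H15.CHL.InrP
import Pool.Agent.H45.CH.Main

/-!
# CHL MainP

The theorem on reduction, `E` of characteristic `p`.
-/

set_option autoImplicit false

namespace Pool.Agent.H15.CHL

open IntermediateField Pool.Agent.H2.HER Pool.Agent.H45.CH

variable {k E κ K : Type*} [Field k] [Field E] [Field κ] [Field K] [Algebra k κ]
    [Algebra E K] {O : ValuationSubring K} {ρ : O →+* κ} {n : ℕ} {x : Fin n → O}

theorem main_step_p [IsAlgClosed k] [IsAlgClosed E] [IsAlgClosed κ] [IsAlgClosed K]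
    (p : ℕ) [Fact p.Prime] [CharP E p] [CharP κ p] (h : Red k E O ρ x) {r : ℕ} (hr : 1 ≤ r) (s : ℕ)
    (hs : 1 ≤ s) :
    (∀ w : O, (w : K) ∈ ALG.M E (fun i => (x i : K)) r s →
      ρ w ∈ ALG.M k (fun i => ρ (x i)) r (2 * s - 1)) ∧
    (∀ (g : K ≃ₐ[E] K) (τ : κ ≃ₐ[k] κ), Lifts O ρ g τ → (∀ i, g (x i) = x i) →
      (∀ w ∈ ALG.M k (fun i => ρ (x i)) r (2 * s - 2), τ w = w) →
      ∀ z ∈ ALG.M E (fun i => (x i : K)) r s, ∃ a : ℕ, (g ^ (p ^ a)) z = z) := by
  haveI : CharP k p := (algebraMap k κ).charP (algebraMap k κ).injective p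
  have hmono := M_mono (k := k) (fun i => ρ (x i)) hr
  induction s, hs using Nat.le_induction with
  | base =>
    constructor
    · intro w hw
      exact res_base h w hw
    · intro g τ hg hgx hτ z hz
      refine ⟨0, ?_⟩
      rw [pow_zero, pow_one]
      have h1 : g ∈ (adjoin E (Set.range (fun i => (x i : K)))).fixingSubgroup :=
        ALG.mem_fs_adjoin.2 (by rintro _ ⟨i, rfl⟩; exact hgx i)
      exact ALG.mem_fs.1 h1 z hz
  | succ s hs ih =>
    obtain ⟨ih1, ih2⟩ := ih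
    obtain ⟨s, rfl⟩ : ∃ s', s = s' + 1 := ⟨s - 1, by omega⟩
    have e1 : 2 * (s + 1) - 1 = 2 * s + 1 := by omega
    have e2 : 2 * (s + 1) - 2 ≤ 2 * s + 2 := by omega
    have e3 : 2 * (s + 1 + 1) - 2 = 2 * s + 2 := by omega
    have e4 : 2 * (s + 1 + 1) - 1 = 2 * s + 2 + 1 := by omega
    rw [e1] at ih1
    rw [e3, e4]
    have hII : ∀ (g : K ≃ₐ[E] K) (τ : κ ≃ₐ[k] κ), Lifts O ρ g τ → (∀ i, g (x i) = x i) →
        (∀ w ∈ ALG.M k (fun i => ρ (x i)) r (2 * s + 2), τ w = w) →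
        ∀ z ∈ ALG.M E (fun i => (x i : K)) r (s + 1 + 1), ∃ a : ℕ, (g ^ (p ^ a)) z = z := by
      intro g τ hg hgx hτ z hz
      have hle : ALG.M E (fun i => (x i : K)) r (s + 1 + 1) ≤ pfix p g := by
        rw [ALG.M]
        refine iSup_le (fun t => ?_)
        intro w hw
        have h1 : ∀ i, ∃ a : ℕ, (g ^ (p ^ a)) (t.1 i) = t.1 i := fun i =>
          ih2 g τ hg hgx (fun w hw => hτ w (hmono e2 hw)) _ (t.2 i)
        choose a ha using h1
        obtain ⟨y, hyF, hy⟩ := exists_residues h (ALG.M E (fun i => (x i : K)) r (s + 1)) t.1 t.2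
        have h5 : ALG.bracket (k := k) (fun i => ρ (y i)) ≤
            ALG.M k (fun i => ρ (x i)) r (2 * s + 2) :=
          ALG.bracket_le_M r (2 * s) (fun i => ρ (y i)) (fun i => ih1 (y i) (hyF i))
        have h3 : ∀ w : O, (w : K) ∈ ALG.bracket (k := E) t.1 →
            (τ ^ (p ^ (Finset.univ.sup a))) (ρ w) = ρ w := by
          intro w hw
          have h6 : (τ ^ 1) (ρ w) = ρ w := by
            rw [pow_one]
            exact hτ _ (h5 (hy w hw))
          have h7 := pow_mul_fix h6 (p ^ (Finset.univ.sup a))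
          rwa [one_mul] at h7
        obtain ⟨b, hb⟩ := exists_pow_fix_p p h t.1 (g ^ (p ^ (Finset.univ.sup a)))
          (τ ^ (p ^ (Finset.univ.sup a))) (hg.pow _)
          (fun i => pow_fix_mono p (Finset.le_sup (Finset.mem_univ i)) (ha i)) h3 w hw
        exact ⟨Finset.univ.sup a + b, by rw [pow_add, pow_mul]; exact hb⟩
      exact hle hz
    refine ⟨?_, hII⟩
    intro w hw
    set R := ALG.M k (fun i => ρ (x i)) r (2 * s + 2) with hR
    have hxR : adjoin k (Set.range (fun i => ρ (x i))) ≤ R := by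
      have := hmono (show 0 ≤ 2 * s + 2 by omega)
      exact this
    haveI : Algebra.IsAlgebraic R κ := ⟨fun z => ALG.mem_ac.1 (ALG.ac_mono hxR (by
      rw [ALG.ac_top_of_basis h.tb']; exact mem_top))⟩
    obtain ⟨b, hb⟩ := exists_pow_mem_pcl p R (ρ w) (by
      intro τ hτ
      obtain ⟨g, hgx, hg⟩ := exists_lift_p p h τ (fun i => ALG.mem_fs.1 hτ _
        (hxR (subset_adjoin k _ ⟨i, rfl⟩)))
      obtain ⟨a, ha⟩ := hII g τ hg hgx (ALG.mem_fs.1 hτ) (w : K) hw
      exact ⟨a, ((hg.pow (p ^ a)).eq (z := w) (y := w) ha.symm).symm⟩)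
    exact PX.pcl_M_le p (fun i => ρ (x i)) hr (2 * s + 2) (by omega)
      (mem_of_pow_mem p (pcl_perfect p R (M_perfect p (fun i => ρ (x i)) r (2 * s))) b hb)

end Pool.Agent.H15.CHL
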