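import Pool.Agent.H2.HER.AllN

/-!
# CHL One

`M_r(n; k) = K_n(k)` for one large `n` depends only on the characteristic of `k`.
-/

set_option autoImplicit false
set_option linter.style.haveILetI false

namespace Pool.Agent.H15.CHL

open Polynomial IntermediateField Pool.Agent.H2.HER

universe u

/-- the last variables become constants -/
theorem one_imp {p : ℕ} {c : ℕ∞} {d : ℕ → ℕ}
    (hc : ∀ (k : Type u) [Field k] [IsAlgClosed k] [CharP k p] (r : ℕ), 1 ≤ r →
      (c ≤ r → MU k (xn k (r + 1)) r = ⊤) ∧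
      ∀ n, r < n → (∃ b : Fin (d n) → k, AlgebraicIndependent (⊥ : Subfield k) b) →
        MU k (xn k (r + 1)) r = ⊤ → c ≤ r)
    (k : Type u) [Field k] [IsAlgClosed k] [CharP k p] (r : ℕ) (hr : 1 ≤ r) (D : ℕ)
    (hD : d (r + 1) ≤ D) (h : MU k (xn k (r + 1 + D)) r = ⊤) : c ≤ r := by
  classical
  obtain ⟨x, hxdef⟩ : ∃ x, x = xn k (r + 1 + D) := ⟨_, rfl⟩
  rw [← hxdef] at h
  have hx : IsTranscendenceBasis k x := by rw [hxdef]; exact basis_xn k (r + 1 + D)
  let y : Fin D → Kn k (r + 1 + D) := fun j => x (Fin.natAdd (r + 1) j)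
  let X : Fin (r + 1) → Kn k (r + 1 + D) := fun j => x (Fin.castAdd D j)
  haveI : IsAlgClosed (ALG.bracket (k := k) y) := isAlgClosed_bracket _
  have hXb : IsTranscendenceBasis (ALG.bracket (k := k) y) X := by
    refine basis_rest y X ?_ (fun z => ?_)
    · have h2 := hx.1.comp _ (finSumFinEquiv (m := r + 1) (n := D)).injective
      have h3 : x ∘ finSumFinEquiv (m := r + 1) (n := D) = Sum.elim X y := by
        funext a
        rcases a with a | a
        · simp only [Function.comp_apply, finSumFinEquiv_apply_left, Sum.elim_inl, X]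
        · simp only [Function.comp_apply, finSumFinEquiv_apply_right, Sum.elim_inr, y]
      rwa [h3] at h2
    · refine IsAlgebraic.tower_top_of_subalgebra_le (Algebra.adjoin_mono ?_)
        (hx.isAlgebraic.isAlgebraic z)
      rintro _ ⟨i, rfl⟩
      refine Fin.addCases (fun j => ?_) (fun j => ?_) i
      · exact Or.inl ⟨j, rfl⟩
      · exact Or.inr ⟨j, rfl⟩
  have h1 : MU (ALG.bracket (k := k) y) X r = ⊤ := by
    rw [eq_top_iff]
    intro z _
    have h2 : z ∈ MU k x r := by rw [h]; exact mem_top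
    obtain ⟨s, hs⟩ := (mem_MU hr).1 h2
    refine M_le_MU X r (s + 1) (M_mono_const (k := k) (k' := ALG.bracket (k := k) y) (X := X)
      (x := x) (fun j => ?_) r (s + 1) hs)
    refine Fin.addCases (fun i => ?_) (fun i => ?_) j
    · exact subset_adjoin _ _ ⟨i, rfl⟩
    · exact IntermediateField.algebraMap_mem (adjoin (ALG.bracket (k := k) y) (Set.range X))
        ⟨y i, ALG.mem_bracket y i⟩
  haveI : CharP (ALG.bracket (k := k) y) p :=
    charP_of_injective_algebraMap (algebraMap k (ALG.bracket (k := k) y)).injective p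
  have h3 : MU (ALG.bracket (k := k) y) (xn (ALG.bracket (k := k) y) (r + 1)) r = ⊤ := by
    have hbz : ALG.bracket (k := ALG.bracket (k := k) y) X = ⊤ := by
      rw [ALG.bracket_eq]; exact ALG.ac_top_of_basis hXb
    refine (bracket_le_MU_iff hXb.1 r).1 ?_
    rw [hbz, top_le_iff]
    exact h1
  refine (hc _ r hr).2 (r + 1) (Nat.lt_succ_self r) ⟨fun i => ⟨y (Fin.castLE hD i),
    ALG.mem_bracket y _⟩, ?_⟩ h3
  have h4 : AlgebraicIndependent k (fun i : Fin D =>
      (⟨y i, ALG.mem_bracket y i⟩ : ALG.bracket (k := k) y)) := by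
    refine AlgebraicIndependent.of_comp (IntermediateField.val (ALG.bracket (k := k) y)) ?_
    exact hx.1.comp _ (Fin.natAdd_injective D (r + 1))
  have h5 : AlgebraicIndependent (⊥ : Subfield (ALG.bracket (k := k) y)) (fun i : Fin D =>
      (⟨y i, ALG.mem_bracket y i⟩ : ALG.bracket (k := k) y)) := by
    refine indep_of_factor h4 (fun a => ?_)
    have h6 : (a : ALG.bracket (k := k) y) ∈
        (algebraMap k (ALG.bracket (k := k) y)).fieldRange :=
      (bot_le : (⊥ : Subfield _) ≤ _) a.2
    exact h6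
  exact h5.comp (Fin.castLE hD) (Fin.castLE_injective hD)

end Pool.Agent.H15.CHL
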