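import Pool.Agent.H2.HER.ThrAll
import Pool.Agent.H15.CHL.One

/-!
# CHL ThrOne

The threshold theorem with the criterion by one large `n`.
-/

set_option autoImplicit false
set_option linter.style.haveILetI false

namespace Pool.Agent.H15.CHL

open IntermediateField Pool.Agent.H2.HER Pool.Agent.H45.CH

universe u v w

/-- the number of distinct fields among `M_1, …, M_n`; for every algebraically closed `k` of
characteristic `p` and every `n ≥ N r`, `M_r(n; k) = K_n(k)` if and only if `c p ≤ r` -/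
theorem threshold_one : ∃ c : ℕ → ℕ∞, (∀ p, 1 ≤ c p) ∧ (∀ p, c p ≤ c 0) ∧
    ∀ p, (∃ N : ℕ → ℕ, ∀ (k : Type u) [Field k] [IsAlgClosed k] [CharP k p] (K : Type w) [Field K]
        [IsAlgClosed K] [Algebra k K] (r n : ℕ) (x : Fin n → K), 1 ≤ r → N r ≤ n →
        IsTranscendenceBasis k x → (MU k x r = ⊤ ↔ c p ≤ r)) ∧
    ∃ d : ℕ → ℕ,
    ∀ (k : Type u) [Field k] [IsAlgClosed k] [CharP k p] (K : Type v) [Field K] [IsAlgClosed K]
      [Algebra k K] (n : ℕ) (x : Fin n → K), 1 ≤ n → IsTranscendenceBasis k x →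
      (∀ r r', 1 ≤ r → r < r' → r' ≤ n → c p ≤ r → MU k x r = MU k x r') ∧
      {F | ∃ r, 1 ≤ r ∧ r ≤ n ∧ F = MU k x r}.encard ≤ min (n : ℕ∞) (c p) ∧
      ((∃ b : Fin (d n) → k, AlgebraicIndependent (⊥ : Subfield k) b) →
        (∀ r r', 1 ≤ r → r < r' → r' ≤ n → (MU k x r = MU k x r' ↔ c p ≤ r)) ∧
        {F | ∃ r, 1 ≤ r ∧ r ≤ n ∧ F = MU k x r}.encard = min (n : ℕ∞) (c p)) := by
  classical
  choose c hc1 d hc using fun p => Pool.Agent.H2.HER.exists_const.{u} p
  have hle : ∀ p, p.Prime → c p ≤ c 0 := by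
    intro p hp
    haveI := Fact.mk hp
    by_cases htop : c 0 = ⊤
    · rw [htop]; exact le_top
    · obtain ⟨r, hr⟩ := ENat.ne_top_iff_exists.1 htop
      have hr1 : 1 ≤ r := by
        have := hc1 0
        rw [← hr] at this
        exact_mod_cast this
      obtain ⟨k₃, _, _, _, B, hB⟩ := exists_big (ULift.{u} (ZMod p)) p
      have h1 : MU k₃ (xn k₃ (r + 1)) r = ⊤ :=
        top_of_zero p hr1 (fun E _ _ _ => (hc 0 E r hr1).1 hr.ge) k₃
      have h2 := (hc p k₃ r hr1).2 (r + 1) (Nat.lt_succ_self r)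
        ⟨fun i => B i, hB.comp _ Fin.val_injective⟩ h1
      rw [← hr]
      exact h2
  refine ⟨fun p => if p.Prime ∨ p = 0 then c p else 1, ?_, ?_, fun p => ⟨?_, ?_⟩⟩
  · intro p
    dsimp only
    split_ifs
    · exact hc1 p
    · exact le_rfl
  · intro p
    dsimp only
    rw [if_pos (Or.inr rfl : Nat.Prime 0 ∨ 0 = 0)]
    split_ifs with h
    · rcases h with h | rfl
      · exact hle p h
      · exact le_rfl
    · exact hc1 0
  · refine ⟨fun r => r + 1 + d p (r + 1), fun k _ _ _ K _ _ _ r n x hr hn hx => ?_⟩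
    have h : p.Prime ∨ p = 0 := CharP.char_is_prime_or_zero k p
    dsimp only at hn ⊢
    rw [if_pos h, MU_top_iff hx r]
    constructor
    · intro h1
      obtain ⟨D, rfl⟩ : ∃ D, n = r + 1 + D := ⟨n - (r + 1), by omega⟩
      exact one_imp (hc p) k r hr D (by omega) h1
    · intro h1
      exact (all_iff (hc p) k r hr).2 h1 n
  · refine ⟨d p, fun k _ _ _ => ?_⟩
    have h : p.Prime ∨ p = 0 := CharP.char_is_prime_or_zero k p
    dsimp only
    rw [if_pos h]
    exact threshold_of.{u, v} p (c p) (hc1 p) (d p) (hc p) k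

end Pool.Agent.H15.CHL
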