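import Pool.Agent.H15.CHL.InrZ
import Pool.Agent.H45.CH.Lift
import Pool.Agent.H2.HER.VR3

/-!
# CHL Zero

Residue characteristic zero: the residues of `M_r^s(n; E) ∩ O` are the elements of `M_r^s(n; k)`.
-/

set_option autoImplicit false
set_option linter.style.haveILetI false

namespace Pool.Agent.H15.CHL

open IntermediateField Pool.Agent.H45.CH Pool.Agent.H2.HER

/-- the elements fixed by `g` -/
def fx {E K : Type*} [Field E] [Field K] [Algebra E K] (g : K ≃ₐ[E] K) :
    IntermediateField E K where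
  carrier := {z | g z = z}
  mul_mem' := by
    intro a b ha hb
    rw [Set.mem_setOf_eq] at *
    rw [map_mul, ha, hb]
  one_mem' := map_one _
  add_mem' := by
    intro a b ha hb
    rw [Set.mem_setOf_eq] at *
    rw [map_add, ha, hb]
  zero_mem' := map_zero _
  algebraMap_mem' := fun c => AlgEquiv.commutes _ c
  inv_mem' := by
    intro a ha
    rw [Set.mem_setOf_eq] at *
    rw [map_inv₀, ha]

variable {k E κ K : Type*} [Field k] [Field E] [Field κ] [Field K] [Algebra k κ]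
    [Algebra E K] {O : ValuationSubring K} {ρ : O →+* κ} {n : ℕ} {x : Fin n → O}

theorem zero_step [IsAlgClosed E] [IsAlgClosed κ] [IsAlgClosed K] [CharZero E] [CharZero κ]
    [CharZero k] (h : Red k E O ρ x) {r : ℕ} (hr : 1 ≤ r) (s : ℕ) (hs : 1 ≤ s) :
    (∀ w : O, (w : K) ∈ ALG.M E (fun i => (x i : K)) r s →
      ρ w ∈ ALG.M k (fun i => ρ (x i)) r s) ∧
    (∀ (g : K ≃ₐ[E] K) (τ : κ ≃ₐ[k] κ), Lifts O ρ g τ → (∀ i, g (x i) = x i) →
      (∀ w ∈ ALG.M k (fun i => ρ (x i)) r s, τ w = w) →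
      ∀ z ∈ ALG.M E (fun i => (x i : K)) r s, g z = z) := by
  have hmono := M_mono (k := k) (fun i => ρ (x i)) hr
  induction s, hs using Nat.le_induction with
  | base =>
    constructor
    · intro w hw
      exact res_base h w hw
    · intro g τ hg hgx hτ z hz
      have h1 : g ∈ (adjoin E (Set.range (fun i => (x i : K)))).fixingSubgroup :=
        ALG.mem_fs_adjoin.2 (by rintro _ ⟨i, rfl⟩; exact hgx i)
      exact ALG.mem_fs.1 h1 z hz
  | succ s hs ih =>
    obtain ⟨ih1, ih2⟩ := ih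
    obtain ⟨s, rfl⟩ : ∃ s', s = s' + 1 := ⟨s - 1, by omega⟩
    have hII : ∀ (g : K ≃ₐ[E] K) (τ : κ ≃ₐ[k] κ), Lifts O ρ g τ → (∀ i, g (x i) = x i) →
        (∀ w ∈ ALG.M k (fun i => ρ (x i)) r (s + 1 + 1), τ w = w) →
        ∀ z ∈ ALG.M E (fun i => (x i : K)) r (s + 1 + 1), g z = z := by
      intro g τ hg hgx hτ z hz
      have hle : ALG.M E (fun i => (x i : K)) r (s + 1 + 1) ≤ fx g := by
        rw [ALG.M]
        refine iSup_le (fun t => ?_)
        intro w hw
        obtain ⟨y, hyF, hy⟩ := exists_residues h (ALG.M E (fun i => (x i : K)) r (s + 1)) t.1 t.2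
        have h5 : ALG.bracket (k := k) (fun i => ρ (y i)) ≤
            ALG.M k (fun i => ρ (x i)) r (s + 1 + 1) :=
          ALG.bracket_le_M r s (fun i => ρ (y i)) (fun i => ih1 (y i) (hyF i))
        exact fix_of_res h t.1 g τ hg
          (fun i => ih2 g τ hg hgx (fun w hw => hτ w (hmono (Nat.le_succ _) hw)) _ (t.2 i))
          (fun w hw => hτ _ (h5 (hy w hw))) w hw
      exact hle hz
    refine ⟨?_, hII⟩
    intro w hw
    have hxR : adjoin k (Set.range (fun i => ρ (x i))) ≤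
        ALG.M k (fun i => ρ (x i)) r (s + 1 + 1) := hmono (Nat.zero_le (s + 1 + 1))
    haveI : Algebra.IsAlgebraic (ALG.M k (fun i => ρ (x i)) r (s + 1 + 1)) κ :=
      ⟨fun z => ALG.mem_ac.1 (ALG.ac_mono hxR (by
        rw [ALG.ac_top_of_basis h.tb']; exact mem_top))⟩
    haveI : ExpChar k 1 := ExpChar.zero
    obtain ⟨b, hb⟩ := ALG.pow_mem_of_fixed 1 (ALG.M k (fun i => ρ (x i)) r (s + 1 + 1))
      (z := ρ w) (by
        intro τ hτ
        obtain ⟨g, hgx, hg⟩ := exists_lift h τ (fun i => ALG.mem_fs.1 hτ _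
          (hxR (subset_adjoin k _ ⟨i, rfl⟩)))
        exact (hg.eq (z := w) (y := w) (hII g τ hg hgx (ALG.mem_fs.1 hτ) (w : K) hw).symm).symm)
    rwa [one_pow, pow_one] at hb

end Pool.Agent.H15.CHL
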